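import Pool.Agent.Y554.DP.Stm2

/-!
# S_LAW: law of the edges open at one of finitely many times
-/

set_option autoImplicit false

namespace Pool.Agent.Y363.DP

open H974 Finset MeasureTheory

theorem meas_and {Ω E : Type} [DecidableEq E] [MeasurableSpace Ω] {B : E → Set Ω}
    (hB : ∀ e, MeasurableSet (B e)) (F1 F2 : Finset E) :
    MeasurableSet {w | (∀ x ∈ F1, w ∈ B x) ∧ ∀ x ∈ F2, w ∉ B x} := by
  have h : {w | (∀ x ∈ F1, w ∈ B x) ∧ ∀ x ∈ F2, w ∉ B x} =
      (⋂ x ∈ F1, B x) ∩ ⋂ x ∈ F2, (B x)ᶜ := by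
    ext w
    simp
  rw [h]
  exact (F1.measurableSet_biInter fun x _ => hB x).inter
    (F2.measurableSet_biInter fun x _ => (hB x).compl)

theorem law_aux {Ω E : Type} [DecidableEq E] [MeasurableSpace Ω] (μ : Measure Ω)
    [IsProbabilityMeasure μ] {B : E → Set Ω} (hB : ∀ e, MeasurableSet (B e)) (q : ℝ)
    (hq : ∀ F : Finset E, μ.real {w | ∀ x ∈ F, w ∉ B x} = q ^ F.card) (F1 : Finset E) :
    ∀ F2 : Finset E, Disjoint F1 F2 →
      μ.real {w | (∀ x ∈ F1, w ∈ B x) ∧ ∀ x ∈ F2, w ∉ B x} = (1 - q) ^ F1.card * q ^ F2.card := by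
  induction F1 using Finset.induction_on with
  | empty =>
    intro F2 _
    simp only [notMem_empty, IsEmpty.forall_iff, implies_true, true_and, card_empty, pow_zero,
      one_mul]
    exact hq F2
  | insert a F1 ha ih =>
    intro F2 hF
    rw [Finset.disjoint_insert_left] at hF
    have h1 := ih F2 hF.2
    have h2 := ih (insert a F2) (by
      rw [Finset.disjoint_insert_right]
      exact ⟨ha, hF.2⟩)
    have h3 : {w | (∀ x ∈ insert a F1, w ∈ B x) ∧ ∀ x ∈ F2, w ∉ B x} =
        {w | (∀ x ∈ F1, w ∈ B x) ∧ ∀ x ∈ F2, w ∉ B x} \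
          {w | (∀ x ∈ F1, w ∈ B x) ∧ ∀ x ∈ insert a F2, w ∉ B x} := by
      ext w
      simp only [Finset.mem_insert, forall_eq_or_imp, Set.mem_ofPred_eq, Set.mem_sdiff, not_and]
      tauto
    rw [h3, measureReal_sdiff _ (meas_and hB _ _), h1, h2, card_insert_of_notMem ha,
      card_insert_of_notMem hF.1]
    · ring
    · rintro w ⟨h4, h5⟩
      exact ⟨h4, fun x hx => h5 x (Finset.mem_insert_of_mem hx)⟩

theorem law : Pool.Agent.Y554.DP.S_LAW := by
  intro Ω E _ _ μ _ ω hm hf t0 h K ht0 hh S A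
  set B : E → Set Ω := fun e => {w | ∃ j : ℕ, j ≤ K ∧ ω (t0 + j * h) w e = true} with hBdef
  set q : ℝ := 1 / 2 * ((1 + Real.exp (-h)) / 2) ^ K with hqdef
  have hB : ∀ e, MeasurableSet (B e) := by
    intro e
    have h1 : B e = ⋃ j ∈ Finset.range (K + 1), (fun w => ω (t0 + j * h) w e) ⁻¹' {true} := by
      ext w
      simp [hBdef]
    rw [h1]
    exact Finset.measurableSet_biUnion _ fun j _ => hm _ _ (MeasurableSet.of_discrete)
  have hq : ∀ F : Finset E, μ.real {w | ∀ x ∈ F, w ∉ B x} = q ^ F.card := by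
    intro F
    have h1 := hf F K (fun i => t0 + (i : ℕ) * h) (fun _ _ => false) (by simpa using ht0)
      (fun i j hij => by
        have h2 : ((i : ℕ) : ℝ) ≤ ((j : ℕ) : ℝ) := by exact_mod_cast hij
        have h3 := mul_le_mul_of_nonneg_right h2 hh.le
        show t0 + ((i : ℕ) : ℝ) * h ≤ t0 + ((j : ℕ) : ℝ) * h
        linarith)
    have h2 : {w | ∀ x ∈ F, w ∉ B x} =
        {w | ∀ x ∈ F, ∀ i : Fin (K + 1), ω (t0 + (i : ℕ) * h) w x = false} := by
      ext w
      simp only [hBdef, Set.mem_ofPred_eq, not_exists, not_and, Bool.not_eq_true]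
      constructor
      · intro h3 x hx i
        exact h3 x hx i (by omega)
      · intro h3 x hx j hj
        exact h3 x hx ⟨j, by omega⟩
    have h3 : ∀ i : Fin K, t0 + (((i.succ : Fin (K + 1)) : ℕ) : ℝ) * h -
        (t0 + (((i.castSucc : Fin (K + 1)) : ℕ) : ℝ) * h) = h := by
      intro i
      rw [Fin.val_succ, Fin.val_castSucc]
      push_cast
      ring
    have h4 : (∏ x ∈ F, ((1 / 2 : ℝ) * ∏ i : Fin K,
        (if (fun (_ : E) (_ : Fin (K + 1)) => false) x i.castSucc =
            (fun (_ : E) (_ : Fin (K + 1)) => false) x i.succ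
          then (1 + Real.exp (-((fun i : Fin (K + 1) => t0 + ((i : ℕ) : ℝ) * h) i.succ -
            (fun i : Fin (K + 1) => t0 + ((i : ℕ) : ℝ) * h) i.castSucc))) / 2
          else (1 - Real.exp (-((fun i : Fin (K + 1) => t0 + ((i : ℕ) : ℝ) * h) i.succ -
            (fun i : Fin (K + 1) => t0 + ((i : ℕ) : ℝ) * h) i.castSucc))) / 2))) = q ^ F.card := by
      simp only [if_true, h3, Finset.prod_const, Finset.card_univ, Fintype.card_fin]
      rw [hqdef]
    rw [measureReal_def, h2, h1, h4, ENNReal.toReal_ofReal]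
    positivity
  have hlaw := law_aux μ hB q hq
  classical
  have hmem : ∀ w, ∀ G ∈ S.powerset, (w ∈ {w | (∀ x ∈ G, w ∈ B x) ∧ ∀ x ∈ S \ G, w ∉ B x} ↔
      S.filter (fun e => ∃ j : ℕ, j ≤ K ∧ ω (t0 + j * h) w e = true) = G) := by
    intro w G hG
    rw [Finset.mem_powerset] at hG
    constructor
    · rintro ⟨h1, h2⟩
      ext x
      rw [Finset.mem_filter]
      constructor
      · rintro ⟨hx, hx'⟩
        by_contra hxG
        exact h2 x (Finset.mem_sdiff.2 ⟨hx, hxG⟩) hx'
      · intro hx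
        exact ⟨hG hx, h1 x hx⟩
    · intro h1
      refine ⟨fun x hx => ?_, fun x hx hxB => ?_⟩
      · rw [← h1, Finset.mem_filter] at hx
        exact hx.2
      · rw [Finset.mem_sdiff] at hx
        apply hx.2
        rw [← h1, Finset.mem_filter]
        exact ⟨hx.1, hxB⟩
  have hset : {w | A (S.filter (fun e => ∃ j : ℕ, j ≤ K ∧ ω (t0 + j * h) w e = true))} =
      ⋃ G ∈ S.powerset.filter (fun G => A G), {w | (∀ x ∈ G, w ∈ B x) ∧ ∀ x ∈ S \ G, w ∉ B x} := by
    ext w
    rw [Set.mem_iUnion₂]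
    constructor
    · intro hw
      refine ⟨_, ?_, (hmem w _ ?_).2 rfl⟩
      · rw [Finset.mem_filter, Finset.mem_powerset]
        exact ⟨Finset.filter_subset _ _, hw⟩
      · rw [Finset.mem_powerset]
        exact Finset.filter_subset _ _
    · rintro ⟨G, hG, hw⟩
      rw [Finset.mem_filter] at hG
      have h1 := (hmem w G hG.1).1 hw
      show A _
      rw [h1]
      exact hG.2
  rw [hset, measureReal_biUnion_finset]
  · unfold Pr Ex
    rw [Finset.sum_filter]
    apply Finset.sum_congr rfl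
    intro G hG
    beta_reduce
    by_cases hA : A G
    · rw [if_pos hA, ind_of hA, hlaw G (S \ G) Finset.disjoint_sdiff, Finset.prod_const,
        Finset.prod_const]
      ring
    · rw [if_neg hA, ind_not_of hA, mul_zero]
  · intro G hG G' hG' hne
    rw [Function.onFun, Set.disjoint_left]
    intro w hw hw'
    rw [Finset.coe_filter] at hG hG'
    exact hne (((hmem w G hG.1).1 hw).symm.trans ((hmem w G' hG'.1).1 hw'))
  · intro G _
    exact meas_and hB _ _

end Pool.Agent.Y363.DP
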